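import Mathlib
import Pool.Agent.H20.Rigid

set_option autoImplicit false

namespace Pool.Agent.Results.MP_b004e2_gt.TwoCopies

open Topology

/-- Topological manifold: Hausdorff, second countable, locally homeomorphic to Euclidean space. -/
def IsTopManifold (X : Type) [TopologicalSpace X] : Prop :=
  T2Space X ∧ SecondCountableTopology X ∧
    ∀ x : X, ∃ (n : ℕ) (e : OpenPartialHomeomorph X (EuclideanSpace ℝ (Fin n))), x ∈ e.source

/-- The group of self-homeomorphisms of `X` leaving the function `f` invariant. -/
def levelGroup {X : Type} [TopologicalSpace X] (f : X → ℝ) : Subgroup (X ≃ₜ X) where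
  carrier := {T | ∀ p, f (T p) = f p}
  mul_mem' := by
    intro S T hS hT p
    rw [Homeomorph.mul_apply, hS, hT]
  one_mem' := by
    intro p
    rfl
  inv_mem' := by
    intro T hT p
    rw [Homeomorph.inv_apply]
    have := hT (T.symm p)
    rw [T.apply_symm_apply] at this
    exact this.symm

theorem mem_levelGroup {X : Type} [TopologicalSpace X] (f : X → ℝ) (T : X ≃ₜ X) :
    T ∈ levelGroup f ↔ ∀ p, f (T p) = f p := Iff.rfl

theorem locallyCompact {X : Type} [TopologicalSpace X] (h : IsTopManifold X) :
    LocallyCompactSpace X := by
  obtain ⟨h1, _, h3⟩ := h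
  have : WeaklyLocallyCompactSpace X := by
    constructor
    intro x
    obtain ⟨n, e, hx⟩ := h3 x
    have ht : e.target ∈ 𝓝 (e x) := e.open_target.mem_nhds (e.map_source hx)
    obtain ⟨K, hK, hKs, hKc⟩ := local_compact_nhds ht
    refine ⟨e.symm '' K, hKc.image_of_continuousOn (e.continuousOn_symm.mono hKs), ?_⟩
    have := e.symm.image_mem_nhds (e.map_source hx) hK
    rw [e.left_inv hx] at this
    exact this
  infer_instance

theorem sum_manifold {M : Type} [TopologicalSpace M] (h : IsTopManifold M) :
    IsTopManifold (M ⊕ M) := by
  obtain ⟨h1, h2, h3⟩ := h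
  refine ⟨inferInstance, inferInstance, ?_⟩
  rintro (x | x)
  · obtain ⟨n, e, hx⟩ := h3 x
    have : Nonempty M := ⟨x⟩
    let i := (IsOpenEmbedding.inl (X := M) (Y := M)).toOpenPartialHomeomorph
    refine ⟨n, i.symm.trans e, ?_⟩
    rw [OpenPartialHomeomorph.trans_source]
    refine ⟨⟨x, trivial, rfl⟩, ?_⟩
    have : i.symm (i x) = x := i.left_inv trivial
    show i.symm (i x) ∈ e.source
    rw [this]
    exact hx
  · obtain ⟨n, e, hx⟩ := h3 x
    have : Nonempty M := ⟨x⟩
    let i := (IsOpenEmbedding.inr (X := M) (Y := M)).toOpenPartialHomeomorph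
    refine ⟨n, i.symm.trans e, ?_⟩
    rw [OpenPartialHomeomorph.trans_source]
    refine ⟨⟨x, trivial, rfl⟩, ?_⟩
    have : i.symm (i x) = x := i.left_inv trivial
    show i.symm (i x) ∈ e.source
    rw [this]
    exact hx

theorem not_homeo {M : Type} [TopologicalSpace M] [Nonempty M] [Finite (ConnectedComponents M)] :
    IsEmpty (M ≃ₜ M ⊕ M) := by
  constructor
  intro e
  let φ : M ⊕ M → ConnectedComponents M ⊕ ConnectedComponents M :=
    Sum.map ConnectedComponents.mk ConnectedComponents.mk
  have hφ : Continuous φ := Continuous.sumMap ConnectedComponents.continuous_coe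
    ConnectedComponents.continuous_coe
  have hψ : Continuous (φ ∘ e) := hφ.comp e.continuous
  have hsurj : Function.Surjective hψ.connectedComponentsLift := by
    rintro (c | c)
    · obtain ⟨x, rfl⟩ := ConnectedComponents.surjective_coe c
      refine ⟨ConnectedComponents.mk (e.symm (Sum.inl x)), ?_⟩
      rw [Continuous.connectedComponentsLift_apply_coe]
      simp [φ]
    · obtain ⟨x, rfl⟩ := ConnectedComponents.surjective_coe c
      refine ⟨ConnectedComponents.mk (e.symm (Sum.inr x)), ?_⟩
      rw [Continuous.connectedComponentsLift_apply_coe]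
      simp [φ]
  have hc := Nat.card_le_card_of_surjective _ hsurj
  rw [Nat.card_sum] at hc
  have hpos : 0 < Nat.card (ConnectedComponents M) := Finite.card_pos
  omega

theorem group_iso {M : Type} [TopologicalSpace M] (f₀ : M → ℝ) (g : M → ℝ) (a : ℝ → ℝ)
    (ha : Function.Injective a) (hag : ∀ s p, a s < g p)
    (hg : ∀ T : M ≃ₜ M, (∀ p, g (T p) = g p) → ∀ p, T p = p) :
    Nonempty (levelGroup f₀ ≃* levelGroup (Sum.elim (a ∘ f₀) g)) := by
  let Φ : levelGroup f₀ →* levelGroup (Sum.elim (a ∘ f₀) g) :=
    { toFun := fun T => ⟨T.1.sumCongr (Homeomorph.refl M), by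
        rw [mem_levelGroup]
        rintro (p | p)
        · show a (f₀ (T.1 p)) = a (f₀ p)
          rw [T.2 p]
        · rfl⟩
      map_one' := by
        apply Subtype.ext
        apply Homeomorph.ext
        rintro (p | p) <;> rfl
      map_mul' := by
        intro S T
        apply Subtype.ext
        apply Homeomorph.ext
        rintro (p | p) <;> rfl }
  have hinj : Function.Injective Φ := by
    intro S T h
    apply Subtype.ext
    apply Homeomorph.ext
    intro p
    have h1 : (Φ S).1 (Sum.inl p) = (Φ T).1 (Sum.inl p) := by rw [h]
    exact Sum.inl_injective h1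
  have hsplit : ∀ S : M ⊕ M ≃ₜ M ⊕ M, (∀ x, Sum.elim (a ∘ f₀) g (S x) =
      Sum.elim (a ∘ f₀) g x) → (∀ p, ∃ q, S (Sum.inl p) = Sum.inl q) ∧
      (∀ p, ∃ q, S (Sum.inr p) = Sum.inr q) := by
    intro S hS
    constructor
    · intro p
      rcases h : S (Sum.inl p) with q | q
      · exact ⟨q, rfl⟩
      · have h1 := hS (Sum.inl p)
        rw [h] at h1
        have h2 : g q = a (f₀ p) := h1
        have := hag (f₀ p) q
        linarith
    · intro p
      rcases h : S (Sum.inr p) with q | q
      · have h1 := hS (Sum.inr p)
        rw [h] at h1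
        have h2 : a (f₀ q) = g p := h1
        have := hag (f₀ q) p
        linarith
      · exact ⟨q, rfl⟩
  have hsurj : Function.Surjective Φ := by
    rintro ⟨S, hS⟩
    have hS' : S.symm ∈ levelGroup (Sum.elim (a ∘ f₀) g) := Subgroup.inv_mem _ hS
    obtain ⟨h1, h2⟩ := hsplit S hS
    obtain ⟨h3, h4⟩ := hsplit S.symm hS'
    choose t ht using h1
    choose u hu using h2
    choose t' ht' using h3
    choose u' hu' using h4
    have hcl : ∀ k : M → M, Continuous (fun p => (Sum.inl (k p) : M ⊕ M)) → Continuous k := by
      intro k hk
      exact (IsEmbedding.inl (X := M) (Y := M)).continuous_iff.mpr hk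
    have hcr : ∀ k : M → M, Continuous (fun p => (Sum.inr (k p) : M ⊕ M)) → Continuous k := by
      intro k hk
      exact (IsEmbedding.inr (X := M) (Y := M)).continuous_iff.mpr hk
    have hS1 : ∀ p, g (u p) = g p := by
      intro p
      have := hS (Sum.inr p)
      rw [hu] at this
      exact this
    let T : M ≃ₜ M :=
      { toFun := t
        invFun := t'
        left_inv := by
          intro p
          have := S.symm_apply_apply (Sum.inl p)
          rw [ht, ht'] at this
          exact Sum.inl_injective this
        right_inv := by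
          intro p
          have := S.apply_symm_apply (Sum.inl p)
          rw [ht', ht] at this
          exact Sum.inl_injective this
        continuous_toFun := by
          apply hcl
          simp_rw [← ht]
          exact S.continuous.comp continuous_inl
        continuous_invFun := by
          apply hcl
          simp_rw [← ht']
          exact S.symm.continuous.comp continuous_inl }
    let R : M ≃ₜ M :=
      { toFun := u
        invFun := u'
        left_inv := by
          intro p
          have := S.symm_apply_apply (Sum.inr p)
          rw [hu, hu'] at this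
          exact Sum.inr_injective this
        right_inv := by
          intro p
          have := S.apply_symm_apply (Sum.inr p)
          rw [hu', hu] at this
          exact Sum.inr_injective this
        continuous_toFun := by
          apply hcr
          simp_rw [← hu]
          exact S.continuous.comp continuous_inr
        continuous_invFun := by
          apply hcr
          simp_rw [← hu']
          exact S.symm.continuous.comp continuous_inr }
    have hR : ∀ p, u p = p := hg R hS1
    refine ⟨⟨T, ?_⟩, ?_⟩
    · intro p
      have := hS (Sum.inl p)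
      rw [ht] at this
      exact ha this
    · apply Subtype.ext
      apply Homeomorph.ext
      rintro (p | p)
      · show Sum.inl (t p) = S (Sum.inl p)
        rw [ht]
      · show Sum.inr p = S (Sum.inr p)
        rw [hu, hR]
  exact ⟨MulEquiv.ofBijective Φ ⟨hinj, hsurj⟩⟩

/-- For every nonempty manifold `M` with finitely many components, the manifold `M ⊕ M` (two
disjoint copies of `M`) is not homeomorphic to `M`, yet every level group on `M` is isomorphic to
a level group on `M ⊕ M`. -/
theorem result : ∀ (M : Type) [TopologicalSpace M], IsTopManifold M → Nonempty M →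
    Finite (ConnectedComponents M) →
    IsTopManifold (M ⊕ M) ∧ IsEmpty (M ≃ₜ M ⊕ M) ∧
    ∀ f₀ : M → ℝ, Continuous f₀ → ∃ f : M ⊕ M → ℝ, Continuous f ∧
      Nonempty (levelGroup f₀ ≃* levelGroup f) := by
  intro M _ hM hne hfin
  refine ⟨sum_manifold hM, not_homeo, ?_⟩
  intro f₀ hf₀
  have hlc := locallyCompact hM
  have := hM.1
  have := hM.2.1
  obtain ⟨g, hg⟩ := Pool.Agent.H20.Rigid.exists_rigid M
  have hgb : ∀ p, -‖g‖ ≤ g p := by
    intro p
    have := g.norm_coe_le_norm p
    rw [Real.norm_eq_abs] at this
    exact (abs_le.mp this).1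
  refine ⟨Sum.elim ((fun s => -‖g‖ - Real.exp s) ∘ f₀) g, ?_, ?_⟩
  · apply Continuous.sumElim
    · exact (continuous_const.sub Real.continuous_exp).comp hf₀
    · exact g.continuous
  · apply group_iso f₀ g (fun s => -‖g‖ - Real.exp s)
    · intro s t h
      have h1 : -‖g‖ - Real.exp s = -‖g‖ - Real.exp t := h
      exact Real.exp_injective (by linarith)
    · intro s p
      have := Real.exp_pos s
      have := hgb p
      show -‖g‖ - Real.exp s < g p
      linarith
    · exact hg

end Pool.Agent.Results.MP_b004e2_gt.TwoCopies
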